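import Pool.Agent.Helper60.PlzA.Goals

set_option autoImplicit false

namespace Pool.Agent.Helper37.PlzA

open Finset Pool.Agent.Helper93.Plz Pool.Agent.Helper60.PlzA

open scoped Classical

variable {V : Type} [Fintype V]

omit [Fintype V] in
theorem ev_injOn {k : ℕ} (x : Fin (k + 1) → V) (hx : Function.Injective x) :
    Set.InjOn (ev x) (↑(range (k + 1)) : Set ℕ) := by
  intro i hi j hj hij
  have hi' : i ≤ k := by have := mem_range.1 (mem_coe.1 hi); omega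
  have hj' : j ≤ k := by have := mem_range.1 (mem_coe.1 hj); omega
  unfold ev at hij
  have h := congrArg Fin.val (hx hij)
  simp only [min_eq_left hi', min_eq_left hj'] at h
  exact h

omit [Fintype V] in
theorem card_TT (G : SimpleGraph V) {k : ℕ} (x : Fin (k + 1) → V) (hx : Function.Injective x) :
    (TT G x).card = (Ks G x).card := by
  unfold TT
  apply card_image_of_injOn
  exact (ev_injOn x hx).mono (by
    intro i hi
    unfold Ks at hi
    exact mem_coe.2 (mem_filter.1 (mem_coe.1 hi)).1)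

omit [Fintype V] in
theorem TT_nonempty (G : SimpleGraph V) {k : ℕ} (x : Fin (k + 1) → V) : (TT G x).Nonempty := by
  refine ⟨ev x 0, ?_⟩
  unfold TT Ks
  refine mem_image_of_mem _ (mem_filter.2 ⟨mem_range.2 (by omega), ?_⟩)
  unfold Kp
  exact ⟨by omega, fun h => by omega⟩

theorem cod_le (G : SimpleGraph V) (t : ℕ) (hd : ∀ v, dgr G v ≤ t) (a b : V) : cod G a b ≤ t := by
  refine le_trans ?_ (hd b)
  unfold cod dgr cmn nbs
  apply card_le_card
  intro w hw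
  simp only [mem_filter, mem_univ, true_and] at hw ⊢
  exact hw.2

theorem gain_le (G : SimpleGraph V) (t : ℕ) (hd : ∀ v, dgr G v ≤ t) (κ : ℝ) (hκ : κ ≤ 1 / 4)
    {k : ℕ} (x : Fin (k + 1) → V) (i : ℕ) : gain G t κ x i ≤ 2 * (t : ℝ) ^ 2 := by
  unfold gain
  have h1 : (0 : ℝ) ≤ rho2 G (ev x i) := Nat.cast_nonneg _
  have h2 : (cod G (ev x (i - 1)) (ev x i) : ℝ) ≤ t := by exact_mod_cast cod_le G t hd _ _
  have h3 : (0 : ℝ) ≤ cod G (ev x (i - 1)) (ev x i) := Nat.cast_nonneg _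
  have h4 : (cod G (ev x (i - 1)) (ev x i) : ℝ) ^ 2 ≤ (t : ℝ) ^ 2 := pow_le_pow_left₀ h3 h2 2
  have h5 : (0 : ℝ) ≤ (t : ℝ) ^ 2 := by positivity
  have h6 : (1 / 4 + κ) * (t : ℝ) ^ 2 ≤ 1 / 2 * (t : ℝ) ^ 2 :=
    mul_le_mul_of_nonneg_right (by linarith) h5
  split_ifs <;> linarith

theorem Err_nonneg (G : SimpleGraph V) (t : ℕ) {k : ℕ} (x : Fin (k + 1) → V) :
    0 ≤ Err G t x := by
  unfold Err
  refine add_nonneg (by positivity) (sum_nonneg fun i _ => sum_nonneg fun p _ => ?_)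
  split_ifs <;> positivity

theorem Dfc_nonneg (G : SimpleGraph V) (t : ℕ) (hd : ∀ v, dgr G v ≤ t) (T : Finset V) :
    0 ≤ Dfc G t T := by
  unfold Dfc
  refine mul_nonneg (by norm_num) (sum_nonneg fun w _ => ?_)
  have : (dgr G w : ℝ) ≤ t := by exact_mod_cast hd w
  linarith

theorem core (h1 : S_RUNPL) (h2 : S_COST) (h3 : S_BADCNT) (h4 : S_ERRSUM) (h5 : S_DFCSUM)
    (h6 : S_MAIN) : S_CORE := by
  intro κ hκ
  set κ' : ℝ := min κ (1 / 4) with hκ'
  have k0 : 0 < κ' := lt_min hκ (by norm_num)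
  have k1 : κ' ≤ 1 / 4 := min_le_right _ _
  have k2 : κ' ≤ κ := min_le_left _ _
  obtain ⟨k', hk'⟩ := exists_nat_ge (1 / κ')
  set k : ℕ := k' + 4 with hk
  have kk : 1 ≤ κ' * ((k : ℝ) - 3) := by
    have : (1 : ℝ) = κ' * (1 / κ') := by field_simp
    rw [this]
    apply mul_le_mul_of_nonneg_left _ k0.le
    rw [hk]; push_cast; linarith
  obtain ⟨γ₀, g0, hmain⟩ := h6 κ' k k0 k1 (by omega) kk
  have hK : (0 : ℝ) < 24 * ((k : ℝ) + 1) ^ 3 := by positivity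
  refine ⟨min (min γ₀ 1) (κ' / (24 * ((k : ℝ) + 1) ^ 3)), ?_, ?_, ?_⟩
  · exact lt_min (lt_min g0 one_pos) (div_pos k0 hK)
  · exact le_trans (min_le_left _ _) (min_le_right _ _)
  intro V _ _ G t hR
  set γ : ℝ := min (min γ₀ 1) (κ' / (24 * ((k : ℝ) + 1) ^ 3)) with hγ
  have γ0 : 0 < γ := lt_min (lt_min g0 one_pos) (div_pos k0 hK)
  have γ1 : γ ≤ γ₀ := le_trans (min_le_left _ _) (min_le_left _ _)
  have γ2 : 24 * ((k : ℝ) + 1) ^ 3 * γ ≤ κ' := by
    have : γ ≤ κ' / (24 * ((k : ℝ) + 1) ^ 3) := min_le_right _ _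
    rw [le_div_iff₀ hK] at this
    linarith
  by_contra hcon
  push Not at hcon
  have hd := hR.deg
  have t1 : (1 : ℝ) ≤ t := by
    by_contra h
    have : t = 0 := by
      have h' : (t : ℝ) < 1 := not_le.1 h
      have : t < 1 := by exact_mod_cast h'
      omega
    have h1' := hR.one
    rw [this] at h1'
    simp at h1'
    linarith
  -- good walks
  have good : ∀ x ∈ Wk G k, Good G x →
      ∑ i ∈ Ks G x, gain G t κ' x i ≤ Err G t x + Dfc G t (TT G x) := by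
    intro x hx hg
    have c1 := h2 V inferInstance G t k x hd hx hg
    have c2 := hcon (TT G x) (TT_nonempty G x) (h1 V inferInstance G k x hg)
    rw [card_TT G x hg.inj] at c2
    have c3 : ∑ i ∈ Ks G x, gain G t κ' x i = (Ks G x).card * ((1 / 4 + κ') * (t : ℝ) ^ 2) -
        ∑ i ∈ Ks G x, ((rho2 G (ev x i) : ℝ) -
          if 1 ≤ i then (cod G (ev x (i - 1)) (ev x i) : ℝ) ^ 2 else 0) := by
      rw [← nsmul_eq_mul, ← sum_const, ← sum_sub_distrib]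
      refine sum_congr rfl (fun i _ => ?_)
      unfold gain
      ring
    have c4 : (Ks G x).card * ((1 / 4 + κ') * (t : ℝ) ^ 2) ≤
        (1 / 4 + κ) * (t : ℝ) ^ 2 * ((Ks G x).card : ℝ) := by
      have : (0 : ℝ) ≤ ((Ks G x).card : ℝ) * (t : ℝ) ^ 2 := by positivity
      nlinarith
    rw [c3]
    linarith
  have all : ∀ x ∈ Wk G k, ∑ i ∈ Ks G x, gain G t κ' x i ≤
      Err G t x + Dfc G t (TT G x) +
        (if ¬ Good G x then 2 * ((k : ℝ) + 1) * (t : ℝ) ^ 2 else 0) := by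
    intro x hx
    by_cases hg : Good G x
    · rw [if_neg (not_not.2 hg), add_zero]
      exact good x hx hg
    · rw [if_pos hg]
      have e1 := Err_nonneg G t x
      have e2 := Dfc_nonneg G t hd (TT G x)
      have e3 : ∑ i ∈ Ks G x, gain G t κ' x i ≤ (Ks G x).card • (2 * (t : ℝ) ^ 2) :=
        sum_le_card_nsmul _ _ _ (fun i _ => gain_le G t hd κ' k1 x i)
      have e4 : ((Ks G x).card : ℝ) ≤ (k : ℝ) + 1 := by
        have : (Ks G x).card ≤ k + 1 := by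
          unfold Ks
          calc _ ≤ (range (k + 1)).card := card_filter_le _ _
            _ = k + 1 := card_range _
        exact_mod_cast this
      rw [nsmul_eq_mul] at e3
      have e5 : ((Ks G x).card : ℝ) * (2 * (t : ℝ) ^ 2) ≤ ((k : ℝ) + 1) * (2 * (t : ℝ) ^ 2) :=
        mul_le_mul_of_nonneg_right e4 (by positivity)
      linarith
  have s1 := hmain V inferInstance G t γ γ0 γ1 hR
  have s2 := sum_le_sum all
  rw [sum_add_distrib, sum_add_distrib, ← sum_filter, sum_const, nsmul_eq_mul] at s2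
  have s3 := h3 V inferInstance G t γ hR k
  have s4 := h4 V inferInstance G t γ hR k
  have s5 := h5 V inferInstance G t γ hR k
  have s6 : (((Wk G k).filter fun x => ¬ Good G x).card : ℝ) * (2 * ((k : ℝ) + 1) * (t : ℝ) ^ 2)
      ≤ (4 * ((k : ℝ) + 1) ^ 2 * γ * Fintype.card V * (t : ℝ) ^ k) *
        (2 * ((k : ℝ) + 1) * (t : ℝ) ^ 2) :=
    mul_le_mul_of_nonneg_right s3 (by positivity)
  have n1 : (1 : ℝ) ≤ (Fintype.card V : ℝ) := by exact_mod_cast Fintype.card_pos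
  set X : ℝ := (Fintype.card V : ℝ) * (t : ℝ) ^ (k + 2) with hX
  have X0 : 0 < X := by positivity
  have s7 : 2 * κ' * X ≤ (12 * ((k : ℝ) + 1) ^ 2 + 4 * ((k : ℝ) + 1) +
      8 * ((k : ℝ) + 1) ^ 3) * γ * X := by
    have q1 : (4 * ((k : ℝ) + 1) ^ 2 * γ * Fintype.card V * (t : ℝ) ^ k) *
        (2 * ((k : ℝ) + 1) * (t : ℝ) ^ 2) = 8 * ((k : ℝ) + 1) ^ 3 * γ * X := by
      rw [hX, pow_add]; ring
    rw [q1] at s6
    have q2 : 2 * κ' * X = 2 * κ' * Fintype.card V * (t : ℝ) ^ (k + 2) := by rw [hX]; ring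
    have q3 : 12 * ((k : ℝ) + 1) ^ 2 * γ * X =
        12 * ((k : ℝ) + 1) ^ 2 * γ * Fintype.card V * (t : ℝ) ^ (k + 2) := by rw [hX]; ring
    have q4 : 4 * ((k : ℝ) + 1) * γ * X =
        4 * ((k : ℝ) + 1) * γ * Fintype.card V * (t : ℝ) ^ (k + 2) := by rw [hX]; ring
    have q5 : (12 * ((k : ℝ) + 1) ^ 2 + 4 * ((k : ℝ) + 1) + 8 * ((k : ℝ) + 1) ^ 3) * γ * X =
        12 * ((k : ℝ) + 1) ^ 2 * γ * X + 4 * ((k : ℝ) + 1) * γ * X +
          8 * ((k : ℝ) + 1) ^ 3 * γ * X := by ring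
    rw [q5, q2, q3, q4]
    linarith
  have s8 : 2 * κ' ≤ (12 * ((k : ℝ) + 1) ^ 2 + 4 * ((k : ℝ) + 1) +
      8 * ((k : ℝ) + 1) ^ 3) * γ := le_of_mul_le_mul_right s7 X0
  have hk1 : (1 : ℝ) ≤ (k : ℝ) + 1 := by
    have : (0 : ℝ) ≤ k := Nat.cast_nonneg _
    linarith
  have s9 : 12 * ((k : ℝ) + 1) ^ 2 + 4 * ((k : ℝ) + 1) + 8 * ((k : ℝ) + 1) ^ 3 ≤
      24 * ((k : ℝ) + 1) ^ 3 := by
    have a1 : ((k : ℝ) + 1) ^ 2 ≤ ((k : ℝ) + 1) ^ 3 := pow_le_pow_right₀ hk1 (by norm_num)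
    have a2 : ((k : ℝ) + 1) ≤ ((k : ℝ) + 1) ^ 3 := le_self_pow₀ hk1 (by norm_num)
    linarith
  have s10 : (12 * ((k : ℝ) + 1) ^ 2 + 4 * ((k : ℝ) + 1) + 8 * ((k : ℝ) + 1) ^ 3) * γ ≤
      24 * ((k : ℝ) + 1) ^ 3 * γ := mul_le_mul_of_nonneg_right s9 γ0.le
  linarith

end Pool.Agent.Helper37.PlzA
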